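import Pool.Agent.H959.B43024.Curve

/-!
# MP_b43024_an: the bounded solutions of `x_{n+1} = 2 x_{n-2} / (1 + x_n + x_{n-1})`

`sol p n` is the term `x_{n-2}` of the solution with initial triple `p = (x_{-2}, x_{-1}, x_0)`,
`Oct` is the positive octant, `BSet` is the set `𝓑` of the problem and
`V x n = x_n + x_{n+1} + x_{n+2} - x_n x_{n+1} - x_{n+1} x_{n+2} - x_n x_{n+2}`.
`V` never decreases along a solution, and `𝓑` is exactly the set of positive triples along whose
solution `V` never exceeds `1`.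
-/

namespace Pool.Agent.Results.MP_b43024_an.BoundedSet

open Filter Topology Set Pool.Agent.H959.B43024

/-- Determination of `𝓑`. -/
theorem result :
    -- `V` is nondecreasing along every positive solution, with this explicit increment
    (∀ p ∈ Oct, ∀ n, V (sol p) (n + 1) = V (sol p) n +
      sol p n * (1 - sol p (n + 1) - sol p (n + 2)) ^ 2 / (1 + sol p (n + 1) + sol p (n + 2))) ∧
    -- the set of bounded solutions, by explicit inequalities
    (∀ p ∈ Oct, (∃ M, ∀ n, sol p n ≤ M) ↔ ∀ n, V (sol p) n ≤ 1) ∧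
    -- bounded solutions converge to `1/2` or to the three-cycle `0, 1, 1`
    (∀ p ∈ Oct, (∃ M, ∀ n, sol p n ≤ M) ↔
      Tendsto (sol p) atTop (𝓝 (1 / 2)) ∨ ∃ i < 3, ConvCycle (sol p) i) ∧
    (∀ p ∈ Oct, Tendsto (sol p) atTop (𝓝 (1 / 2)) ↔ ∀ n, V (sol p) n ≤ 3 / 4) ∧
    (∀ p ∈ Oct, (∃ i < 3, ConvCycle (sol p) i) ↔
      (∀ n, V (sol p) n ≤ 1) ∧ ∃ n, 3 / 4 < V (sol p) n) ∧
    -- both kinds of bounded solutions occur, apart from the constant one
    (∀ a : ℝ, 1 / 2 < a → ∃ b c : ℝ, (a, b, c) ∈ Oct ∧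
      Tendsto (sol (a, b, c)) atTop (𝓝 (1 / 2))) ∧
    (∀ i < 3, ∃ p ∈ Oct, ConvCycle (sol p) i) ∧
    -- the complement: exactly one residue class tends to infinity, the other two tend to zero
    (∀ i < 3, ∀ p ∈ Oct, Escape (sol p) i ↔
      ∃ k, 1 < V (sol p) (3 * k + i) ∧ 1 < sol p (3 * k + i)) ∧
    BSet = Oct \ (RSet 0 ∪ RSet 1 ∪ RSet 2) ∧
    (∀ i < 3, IsOpen (RSet i) ∧ (RSet i).Nonempty) ∧
    (∀ i < 3, ∀ j < 3, i ≠ j → Disjoint (RSet i) (RSet j)) ∧
    -- `𝓑` is relatively closed and has empty interior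
    (∃ C : Set (ℝ × ℝ × ℝ), IsClosed C ∧ BSet = Oct ∩ C) ∧ interior BSet = ∅ := by
  have hcompl : BSet = Oct \ (RSet 0 ∪ RSet 1 ∪ RSet 2) := by
    rw [BSet_compl]
    congr 1
    ext p
    simp only [Finset.mem_range, mem_iUnion, exists_prop, mem_union]
    constructor
    · rintro ⟨i, hi, h⟩
      interval_cases i
      · exact Or.inl (Or.inl h)
      · exact Or.inl (Or.inr h)
      · exact Or.inr h
    · rintro ((h | h) | h)
      · exact ⟨0, by norm_num, h⟩
      · exact ⟨1, by norm_num, h⟩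
      · exact ⟨2, by norm_num, h⟩
  refine ⟨fun p hp n => V_succ (sol_isSol hp) n, fun p hp => bounded_iff (sol_isSol hp), ?_,
    fun p hp => convHalf_iff (sol_isSol hp), fun p hp => convCycle_iff (sol_isSol hp), ?_,
    fun i hi => exists_cycle hi, fun i _ p hp => escape_iff (sol_isSol hp) i, hcompl, ?_,
    fun i hi j hj hij => RSet_disjoint hi hj hij, ?_, interior_BSet⟩
  · intro p hp
    have h := sol_isSol hp
    constructor
    · rintro ⟨M, hM⟩
      rcases bounded_cases h hM with ⟨h1, _⟩ | ⟨h1, _⟩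
      · exact Or.inl h1
      · exact Or.inr h1
    · rintro (h1 | h1)
      · rw [bounded_iff h]
        intro n
        have := (convHalf_iff h).1 h1 n
        linarith
      · rw [bounded_iff h]
        exact ((convCycle_iff h).1 h1).1
  · intro a ha
    obtain ⟨b, c, hb, hc, h⟩ := exists_half ha
    exact ⟨b, c, ⟨by show 0 < a; linarith, by show 0 < b; linarith, by show 0 < c; linarith⟩, h⟩
  · intro i hi
    refine ⟨isOpen_RSet i, ?_⟩
    have key : ∀ p : ℝ × ℝ × ℝ, p ∈ Oct → 1 < V (sol p) 0 → 1 < sol p i → (RSet i).Nonempty := by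
      intro p hp hV hs
      refine ⟨p, ?_⟩
      rw [RSet_eq]
      refine ⟨hp, 0, ?_, ?_⟩
      · exact lt_of_lt_of_le hV (V_mono (sol_isSol hp) (by omega))
      · rw [show 3 * 0 + i = i by omega]; exact hs
    interval_cases i
    · refine key (10, 1 / 10, 1 / 10) ⟨by norm_num, by norm_num, by norm_num⟩ ?_ ?_
      · simp only [V, sol]; norm_num
      · simp only [sol]; norm_num
    · refine key (1 / 10, 10, 1 / 10) ⟨by norm_num, by norm_num, by norm_num⟩ ?_ ?_
      · simp only [V, sol]; norm_num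
      · simp only [sol]; norm_num
    · refine key (1 / 10, 1 / 10, 10) ⟨by norm_num, by norm_num, by norm_num⟩ ?_ ?_
      · simp only [V, sol]; norm_num
      · simp only [sol]; norm_num
  · refine ⟨(RSet 0 ∪ RSet 1 ∪ RSet 2)ᶜ, ?_, ?_⟩
    · exact (((isOpen_RSet 0).union (isOpen_RSet 1)).union (isOpen_RSet 2)).isClosed_compl
    · rw [hcompl]; rfl

end Pool.Agent.Results.MP_b43024_an.BoundedSet
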